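import Pool.Agent.K6.H96.BV.N5

/-!
# Continuation across the edge and algebraicity of boundary values, for all motives at once

The Euler product of the `L`-function of a pure motive over `ℚ` of weight `w` converges for
`Re s > w / 2 + 1`, and it is not known in general that it continues across any point of the edge
`Re s = w / 2 + 1` of this half-plane.  Let a countable family of motives be given, for example all Chow
motives over `ℚ` in all degrees and with all choices `ℓ` of auxiliary primes.  We shift the variable so
that all edges are the line `Re s = 1`.

The theorem is about the ring generated by all these `L`-functions, their inverses and a countable set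
`A` of functions given in advance (such as `s`, `p ^ s`, `Γ(s)`, `ζ(s)`, automorphic `L`-functions, with
all their derivatives and shifts).  The functions in this ring have boundary values at the points
`1 + iτ` for all `τ` outside a set of Hausdorff dimension zero.  For almost every `τ` the continuation
of such a function `f` to a neighbourhood of `1 + iτ` is equivalent to an algebraic property of the
single number `f(1 + iτ)`: that it is algebraic over the field generated by the values at `1 + iτ` of all
those functions of the ring which do continue.  For `f` one takes for example `L(M, s)` or a quotient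
`L(M, s) / L(M', s)`, the `L`-function of a virtual motive.  Moreover the boundary value of `f` is zero
only if `f` is zero: all algebraic relations between the boundary values come from relations between the
functions.

The definitions are in `Pool.Agent.K6.H96.BV.Defs`.
-/

set_option autoImplicit false

namespace Pool.Agent.Results.MP_148101_nt.AlgebraicBoundaryValues

open MeasureTheory Filter Topology Pool.Agent.K6.H96.BV

/-- **Continuation is equivalent to the algebraicity of the boundary value.**  Let `M k` be a countable
family of motives over `ℚ` and `L_k(s)` the `L`-function of `M k`, with the variable shifted so that the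
edge is the line `Re s = 1`.

* There is a set `N` of real numbers of Hausdorff dimension `0` such that for all real `τ` outside `N` the
  functions `L_k(s)` have nonzero boundary values (limits in all angles) at `1 + iτ`, and for every set
  `A` of functions all functions in the ring `ringAt M A τ`, generated by the `L_k`, the `1 / L_k` and the
  functions in `A` analytic at `1 + iτ`, have boundary values at `1 + iτ`.
* For every countable set `A` of functions and almost every real `τ`, for all functions `f` in the
  ring `ringAt M A τ`, with the boundary value `v` at `1 + iτ`: `f` continues holomorphically to a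
  neighbourhood of `1 + iτ` if and only if `v` is algebraic over the field `fieldAt M A τ` generated by
  the boundary values at `1 + iτ` of all functions of the ring which do; and if `v = 0` then `f(s) = 0` for
  all `s` near `1 + iτ` with `Re s > 1`. -/
theorem result {ι : Type} [Countable ι] (M : ι → Motive) :
    (∃ N : Set ℝ, dimH N = 0 ∧ ∀ τ : ℝ, τ ∉ N →
      (∀ k, ∃ v : ℂ, v ≠ 0 ∧ HasBoundaryValue (M k).nL τ v) ∧
      ∀ A : Set (ℂ → ℂ), ∀ f ∈ ringAt M A τ, ∃ v : ℂ, HasBoundaryValue f τ v) ∧
    ∀ A : Set (ℂ → ℂ), A.Countable → ∀ᵐ τ : ℝ, ∀ f ∈ ringAt M A τ, ∀ v : ℂ,
      HasBoundaryValue f τ v →
        (Continues f τ ↔ IsAlgebraic (fieldAt M A τ) v) ∧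
        (v = 0 → ∀ᶠ s in 𝓝 (edge τ), 1 < s.re → f s = 0) := by
  refine ⟨⟨excs M, dimH_excs M, fun τ hτ => ⟨fun k => ?_, fun A f hf => (nice_ring M A hτ hf).2⟩⟩,
    fun A hA => ?_⟩
  · have hk : τ ∉ (M k).exc := fun h => hτ (Set.mem_iUnion.2 ⟨k, h⟩)
    exact ⟨(M k).bval τ, (M k).bval_ne hk, (M k).hasBV hk⟩
  · filter_upwards [ae_main M hA] with τ hτ f hf v hv
    exact ⟨(hτ f hf v hv).1.symm, (hτ f hf v hv).2⟩

end Pool.Agent.Results.MP_148101_nt.AlgebraicBoundaryValues
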