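import Pool.Agent.K6.H96.BV.B9

/-!
# Algebraic relations between boundary values on the edge, and continuation to the plane

Let a countable family of pure motives `M_k` over `ℚ` be given, for example all Chow motives in all
degrees and with all choices `ℓ` of auxiliary primes.  The Euler product of `L(M_k, s)` converges for
`Re s > w_k / 2 + 1`, `w_k` the weight, and it is not known in general that it continues across any point
of the edge of this half-plane.  The boundary values `l_k(τ)` at `w_k / 2 + 1 + iτ` exist for almost
every `τ`.

The theorem determines all algebraic relations between these numbers, for almost every `τ`: there are only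
the obvious ones, which come from multiplicative relations between the Euler products themselves.  (By
Chebotarev's theorem such a relation `n M_k + ∑ a_j M_j = ∑ b_j M_j` is one between the semisimple Galois
representations, with the weights shifted to `0`: a relation in the Grothendieck group.)  In particular, if
one number `l_k(τ)` is algebraic over the field generated by the boundary values `l_j(τ)`, `j ∈ S`, of
`L`-functions which have meromorphic continuations to `ℂ`, for `τ` in a set of positive measure, then a
power of `L(M_k, s)` has a meromorphic continuation to all of `ℂ`.

The definitions are in `Pool.Agent.K6.H96.BV.Defs` and `Pool.Agent.K6.H96.BV.Defs2`.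
-/

set_option autoImplicit false

namespace Pool.Agent.Results.MP_148101_nt.AlgebraicRelations

open MeasureTheory Filter Topology Pool.Agent.K6.H96.BV

/-- **Algebraic relations between boundary values give relations between the `L`-functions, and
continuation to the plane.**  Let `M k` be a countable family of motives over `ℚ`, `(M k).nL` their
`L`-functions, shifted so that the edge is the line `Re s = 1`, and `E` any countable set of complex
numbers which contains the coefficients of the Euler factors.  For almost every real `τ`, for all `k` and
all sets `S` of indices, `(M k).nL` has a nonzero boundary value `v` (the limit in all angles) at `1 + iτ`,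
and the following holds.

* `v` is algebraic over the field generated by `E`, `τ`, all `p ^ (iτ)`, and the boundary values at
  `1 + iτ` of the `(M j).nL` with `j ∈ S`, if and only if there are an `n ≥ 1` and multiplicities `a_j`,
  `b_j` (`j ∈ S`, almost all `0`), such that `L(M k)ⁿ ∏ L(M j)^{a_j}` and `∏ L(M j)^{b_j}` have the
  same Euler factors at all but finitely many primes.
* If `v` is algebraic over this field and all the functions `(M j).nL` with `j ∈ S` extend to meromorphic
  functions on `ℂ`, then `((M k).nL)ⁿ` extends to a meromorphic function on `ℂ` for some `n ≥ 1`. -/
theorem result {ι : Type} [Countable ι] (M : ι → Motive) (E : Set ℂ) (_ : E.Countable)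
    (_ : ∀ (k : ι) (p : Nat.Primes) (n : ℕ), ((M k).poly p).coeff n ∈ E) :
    ∀ᵐ τ : ℝ, ∀ (k : ι) (S : Set ι), ∃ v : ℂ, v ≠ 0 ∧ HasBoundaryValue (M k).nL τ v ∧
      (IsAlgebraic (valueField M E S τ) v ↔
        ∃ n : ℕ, 1 ≤ n ∧ ∃ a b : ι →₀ ℕ, (a.support : Set ι) ⊆ S ∧ (b.support : Set ι) ⊆ S ∧
          ∀ᶠ p in cofinite, (M k).poly p ^ n * mpoly M a p = mpoly M b p) ∧
      (IsAlgebraic (valueField M E S τ) v → (∀ j ∈ S, ExtendsToPlane (M j).nL) →
        ∃ n : ℕ, 1 ≤ n ∧ ExtendsToPlane fun s => (M k).nL s ^ n) := by
  rename_i hE hM
  filter_upwards [ae_relations M hE hM] with τ hτ k S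
  obtain ⟨v, h1, h2, h3⟩ := hτ k S
  exact ⟨v, h1, h2, h3, fun h4 h5 => ext_of_rel (h3.1 h4) h5⟩

end Pool.Agent.Results.MP_148101_nt.AlgebraicRelations
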