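import Pool.Agent.K6.H46.HW.Main2

/-!
# Meromorphic continuation of Hasse-Weil zeta functions and of motivic `L`-functions, and cubic forms

For every scheme `X` of finite type over `ℤ` there are

* a smooth integral rational affine hypersurface `V : ∑ u_j e_j(x) = w (1 - w)` over `ℤ` of degree at
  most three, the `e_j` of the forms `x_a - x_b x_c`, `x_a - (x_b + x_c)`, `x_a - 1`, with
  `ζ_V(s) = ζ(s - m - r) ζ_X(s - r)`, and
* a cubic form `f` with integral coefficients such that the number of zeros of `f` in every finite
  field is an explicit function of the number of points of `X`,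

such that the meromorphic continuation of `ζ_X` to `ℂ` is equivalent to that of `ζ_V`, to that of
`ζ_f`, and to that of the `L`-function of every motive whose Frobenius traces are, up to the sign
and a polynomial, the numbers of points of `X`, at almost all primes. So the Hasse-Weil zeta functions
of all schemes of finite type over `ℤ` continue if and only if those of all integral cubic forms do,
and in this case the `L`-functions of all motives whose Frobenius traces are differences of numbers
of points continue.
-/

set_option autoImplicit false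

open MvPolynomial AlgebraicGeometry CategoryTheory

namespace Pool.Agent.Results.MP_148101_nt.CubicForms

open Pool.Agent.K6.H18.Cubic Pool.Agent.K6.H18.Cubic.Alg Pool.Agent.K6.H46.HW

theorem result :
    -- for every scheme of finite type over `ℤ`
    (∀ X : Scheme.{0}, IsArithmeticScheme X →
      ∃ (m r : ℕ) (c : Fin r → Code m) (k : ℕ → ℕ), 0 < r ∧
        IsRationalHypersurface (fun j => el (c j)) ∧ (form c).IsHomogeneous 3 ∧
        (∀ (F : Type) [Field F] [Finite F], zeros (poly fun j => el (c j)) F =
          Nat.card F ^ (m + r) + Nat.card F ^ r * Nat.card (Pt X F)) ∧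
        (∀ (F : Type) [Field F] [Finite F], zeros (form c) F =
          Nat.card F ^ (m + r + 1) + (Nat.card F - 1) * Nat.card F ^ r *
            (Nat.card (Pt X F) + ∑ i ∈ Finset.range (m + 1), k i * (Nat.card F - 1) ^ i)) ∧
        (∀ s : ℂ, (m : ℝ) + r + 1 < s.re → zetaPoly (poly fun j => el (c j)) s =
          riemannZeta (s - (m + r : ℕ)) * zetaScheme X (s - r)) ∧
        (Continues (zetaScheme X) ↔ Continues (zetaPoly (poly fun j => el (c j)))) ∧
        (Continues (zetaScheme X) ↔ Continues (zetaPoly (form c))) ∧
        ∀ (M : EulerRoots) (S : Finset Nat.Primes) (B : Polynomial ℤ) (ε : ℤ),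
          IsPointCounted M X S B ε → (Continues M.L ↔ Continues (zetaPoly (form c)))) ∧
    -- for all schemes of finite type over `ℤ`
    List.TFAE [
      ∀ X : Scheme.{0}, IsArithmeticScheme X → Continues (zetaScheme X),
      ∀ (m r : ℕ) (c : Fin r → Code m), 0 < r → Continues (zetaPoly (poly fun j => el (c j))),
      ∀ (n : ℕ) (f : MvPolynomial (Fin n) ℤ), f.IsHomogeneous 3 → Continues (zetaPoly f)] ∧
    ((∀ (n : ℕ) (f : MvPolynomial (Fin n) ℤ), f.IsHomogeneous 3 → Continues (zetaPoly f)) →
      ∀ (M : EulerRoots) (X Y : Scheme.{0}) (S : Finset Nat.Primes) (ε : ℤ),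
        IsVirtual M X Y S ε → Continues M.L) := by
  refine ⟨fun X hX => ?_, main_tfae pieces, fun h M X Y S ε hM => ?_⟩
  · obtain ⟨m, r, c, k, h0, h1, h2, h3, h4, h5, h6, h7⟩ := main_scheme pieces X hX
    exact ⟨m, r, c, k, h0, h1, h2, h3, h4, h5, h6, h7, fun M S B ε hM =>
      (continues_pointCounted pieces pieces4 hM).trans h7⟩
  · have h' := ((main_tfae pieces).out 0 2).2 h
    exact continues_virtual pieces pieces4 hM (h' X hM.scheme.1) (h' Y hM.scheme.2)

end Pool.Agent.Results.MP_148101_nt.CubicForms
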