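import Pool.Agent.K6.H65.BJ.Main

/-!
# Almost periodicity, sharp moments and value distribution on the edge of absolute convergence

`M` is a motive over `ℚ` of weight `w` and rank `N`: a system of inverse roots of Euler factors with
`|root| ≤ p^{w/2}` (Deligne); the factors at finitely many bad primes may be omitted (roots `0`), and
twists by characters and by `|·|^{it}` are allowed.  Its Euler product `L(M, s)` converges absolutely
for `Re s > w/2 + 1`.  The theorem is about the line `Re s = w/2 + 1`; no continuation and no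
automorphy is assumed.

The definitions are in `Pool/Agent/K6/H65/BJ/`:
* `Defs`: `Motive`, `LFun`, `edgePoint τ = w/2 + 1 + iτ`, `nroot` (the roots divided by `p^{w/2}`),
  `partialLog b y u = ∑_{p < y} ∑_k -log (1 - b_{p,k} u_p / p)`;
* `Bdry`: `phase τ p = p^{-iτ}`; `Point`: `logL M τ = lim_y partialLog M.nroot y (phase τ)`;
* `Equi`: `Om`, the product of the circles over all primes, `PP`, the product of the uniform
  distributions on `Om`, and `unim ω p`, the coordinate of `ω` at `p` as a complex number of absolute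
  value `1`;
* `Law2`: `IsStepanov`, Stepanov almost periodicity with frequencies in `log ℚ_{>0}`;
* `Main`: `localMoment`, the mean of `∏_j |L_p(M_j)|^{κ_j}` over the phase of `p`, and `angle`.
-/

set_option autoImplicit false

namespace Pool.Agent.Results.MP_148101_nt.EdgeAlmostPeriodicity

open MeasureTheory Filter Topology Pool.Agent.K6.H65.BJ
open scoped ENNReal

/-- **The edge line of all motives over `ℚ`.**  There are an absolute constant `c` and, for every motive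
`M` over `ℚ`, a random variable `Λ_M` on the space `(Om, PP)` of independent uniformly distributed phases
with the following properties.

1. *One motive* `M` of weight `w` and rank `N`.
   (a) Outside a set of heights `τ` of Hausdorff dimension `0`, the sum of the logarithms of the Euler
   factors at `w/2 + 1 + iτ` converges, and `L(M, s)` tends to `exp (log L(M, w/2 + 1 + iτ))` in every
   angle, where `log L(M, w/2 + 1 + iτ)` denotes this sum.
   (b) `∫_x^{x+1} exp (κ |log L(M, w/2 + 1 + iτ)|) dτ ≤ c / (1 - κ N)` for all real `x` and all `κ ≥ 0`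
   with `κ N < 1`, and the same bound holds for the expectation of `exp (κ |Λ_M|)`.
   (c) `∫_x^{x+1} |log L - log L_y|² dτ ≤ c N² / log y` for all real `x` and `y ≥ 3`, where `L_y` is the
   product of the Euler factors at the primes less than `y`, and `E |Λ_M - Λ_{M,y}|² ≤ c N² / log y`,
   where `Λ_{M,y}` is the logarithm of the product of the Euler factors at the primes less than `y`
   with the random phases.
2. *Optimality.*  For `L(s) = ζ(s)^N`, `∫_{-1}^1 |L(1 + iτ)|^κ dτ = ∞` as soon as `κ N ≥ 1`.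
3. *Almost periodicity and limit law.*  Let `M_1, …, M_r` be motives, `κ_j ≥ 0` with
   `∑_j κ_j N_j < 1`, and `h` a continuous function on `ℂ^r` with `|h(y)| ≤ C exp (∑_j κ_j |y_j|)`.  Then
   the function `f(τ) = h(log L(M_1, w_1/2 + 1 + iτ), …, log L(M_r, w_r/2 + 1 + iτ))` is Stepanov almost
   periodic, and `(1/H) ∫_x^{x+H} f(τ) dτ` tends to `E h(Λ_{M_1}, …, Λ_{M_r})` for `H → ∞`, uniformly
   in `x`; this expectation is the limit of the expectations of `h(Λ_{M_1,y}, …, Λ_{M_r,y})` for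
   `y → ∞`.
4. *Moments.*  For all real `κ_j` with `∑_j |κ_j| N_j < 1`, the mean value
   `(1/H) ∫_x^{x+H} ∏_j |L(M_j, w_j/2 + 1 + iτ)|^{κ_j} dτ` tends for `H → ∞`, uniformly in `x`, to the
   positive number `∏_p m_p`, where `m_p` is the mean value of `∏_j |L_p(M_j, ·)|^{κ_j}` over the
   phase of `p`. -/
theorem result : ∃ (c : ℝ) (Λ : Motive → Om → ℂ),
    (∀ M : Motive, Measurable (Λ M) ∧
      (∃ T : Set ℝ, dimH T = 0 ∧ ∀ τ : ℝ, τ ∉ T →
        Tendsto (fun y : ℕ => partialLog M.nroot y (phase τ)) atTop (𝓝 (M.logL τ)) ∧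
        ∀ K : ℝ, Tendsto M.LFun (𝓝[M.angle τ K] (M.edgePoint τ)) (𝓝 (Complex.exp (M.logL τ)))) ∧
      (∀ κ : ℝ, 0 ≤ κ → κ * M.rank < 1 →
        (∀ x : ℝ, ∫⁻ τ in Set.Icc x (x + 1), ENNReal.ofReal (Real.exp (κ * ‖M.logL τ‖)) ≤
          ENNReal.ofReal (c / (1 - κ * M.rank))) ∧
        ∫⁻ ω, ENNReal.ofReal (Real.exp (κ * ‖Λ M ω‖)) ∂PP ≤
          ENNReal.ofReal (c / (1 - κ * M.rank))) ∧
      ∀ y : ℕ, 3 ≤ y →
        (∀ x : ℝ, ∫⁻ τ in Set.Icc x (x + 1),
          ENNReal.ofReal (‖M.logL τ - partialLog M.nroot y (phase τ)‖ ^ 2) ≤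
            ENNReal.ofReal (c * M.rank ^ 2 / Real.log y)) ∧
        ∫⁻ ω, ENNReal.ofReal (‖Λ M ω - partialLog M.nroot y (unim ω)‖ ^ 2) ∂PP ≤
          ENNReal.ofReal (c * M.rank ^ 2 / Real.log y)) ∧
    (∀ (N : ℕ) (κ : ℝ), 1 ≤ κ * N →
      (∀ s : ℂ, 1 < s.re → (unitMotive N).LFun s = riemannZeta s ^ N) ∧
      ∫⁻ τ in Set.Icc (-1 : ℝ) 1,
        ENNReal.ofReal (Real.exp (κ * ((unitMotive N).logL τ).re)) = ∞) ∧
    (∀ (r : ℕ) (M : Fin r → Motive) (κ : Fin r → ℝ) (h : (Fin r → ℂ) → ℂ) (C : ℝ),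
      (∀ j, 0 ≤ κ j) → ∑ j, κ j * (M j).rank < 1 → Continuous h →
      (∀ y, ‖h y‖ ≤ C * Real.exp (∑ j, κ j * ‖y j‖)) →
        IsStepanov (fun τ => h fun j => (M j).logL τ) ∧
        Integrable (fun ω => h fun j => Λ (M j) ω) PP ∧
        Tendsto (fun y : ℕ => ∫ ω, h (fun j => partialLog (M j).nroot y (unim ω)) ∂PP) atTop
          (𝓝 (∫ ω, h (fun j => Λ (M j) ω) ∂PP)) ∧
        ∀ ε : ℝ, 0 < ε → ∃ H₀ : ℝ, 0 < H₀ ∧ ∀ H : ℝ, H₀ ≤ H → ∀ x : ℝ,
          ‖(H : ℂ)⁻¹ * (∫ τ in x..(x + H), h fun j => (M j).logL τ) -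
            ∫ ω, h (fun j => Λ (M j) ω) ∂PP‖ ≤ ε) ∧
    (∀ (r : ℕ) (M : Fin r → Motive) (κ : Fin r → ℝ), ∑ j, |κ j| * (M j).rank < 1 →
      ∃ m : ℝ, 0 < m ∧ Tendsto (fun y : ℕ => ∏ p ∈ primesLt y, localMoment M κ p) atTop (𝓝 m) ∧
        ∀ ε : ℝ, 0 < ε → ∃ H₀ : ℝ, 0 < H₀ ∧ ∀ H : ℝ, H₀ ≤ H → ∀ x : ℝ,
          |H⁻¹ * (∫ τ in x..(x + H), ∏ j, ‖Complex.exp ((M j).logL τ)‖ ^ κ j) - m| ≤ ε) := by
  obtain ⟨c, hc0, Λ, hΛ⟩ := single
  have hCT := CT_pos
  have hcc : ∀ {a : ℝ}, a < 1 → c / (1 - a) ≤ (c + 2 * CT) / (1 - a) := fun {a} ha =>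
    div_le_div_of_nonneg_right (by linarith) (by linarith)
  have htc : ∀ {y : ℕ} (_ : 3 ≤ y) (N : ℕ), ENNReal.ofReal (CT * N ^ 2 / Pool.Agent.W350.Edge.lg y) ≤
      ENNReal.ofReal ((c + 2 * CT) * N ^ 2 / Real.log y) := by
    intro y hy N
    refine (tail_const hy N).trans (ENNReal.ofReal_le_ofReal ?_)
    refine div_le_div_of_nonneg_right ?_ (Real.log_nonneg ?_)
    · exact mul_le_mul_of_nonneg_right (by linarith) (sq_nonneg _)
    · have : (3 : ℝ) ≤ y := by exact_mod_cast hy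
      linarith
  refine ⟨c + 2 * CT, Λ, fun M => ⟨(hΛ M).1.meas, (hΛ M).2, fun κ hκ hκN => ⟨fun x => ?_, ?_⟩,
    fun y hy => ⟨fun x => ?_, ?_⟩⟩, fun N κ hκ => ⟨fun s hs => LFun_unit N hs, moment_top hκ⟩,
    fun r M κ h C hκ hκN hh hC => ?_, fun r M κ hκN => ?_⟩
  · exact ((hΛ M).1.exp_time x κ hκ hκN).trans (ENNReal.ofReal_le_ofReal (hcc hκN))
  · exact ((hΛ M).1.exp_space κ hκ hκN).trans (ENNReal.ofReal_le_ofReal (hcc hκN))
  · exact ((hΛ M).1.tail_time x y (half_log_le_lg hy).1).trans (htc hy _)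
  · exact ((hΛ M).1.tail_space y (half_log_le_lg hy).1).trans (htc hy _)
  · exact law (fun j => (M j).rank) (fun j => (M j).nroot) (fun j => (M j).norm_nroot) hc0
      (fun j => Λ (M j)) (fun j => (hΛ (M j)).1) κ hκ hκN h hh C hC
  · exact moments M hc0 (fun j => Λ (M j)) (fun j => (hΛ (M j)).1) κ hκN

end Pool.Agent.Results.MP_148101_nt.EdgeAlmostPeriodicity
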